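import Pool.Agent.MP_5d9b3c_ag.O5.Spec
import Pool.Agent.MP_5d9b3c_ag.O4.Count

/-! Weighted homogeneous polynomials of one degree: the zeros are counted in slices. -/

namespace Pool.Agent.MP_5d9b3c_ag.O5

open MvPolynomial

namespace CountX

section general

variable {R : Type} [CommRing R]

theorem hom {σ : Type} [Fintype σ] {g : MvPolynomial σ ℤ} {w : σ → ℕ} {d : ℕ}
    (hg : g.IsWeightedHomogeneous w d) (c : R) (v : σ → R) :
    aeval (fun l => c ^ w l * v l) g = c ^ d * aeval v g := by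
  simp only [aeval_def, eval₂_eq', Finset.mul_sum]
  refine Finset.sum_congr rfl fun s hs => ?_
  have h := hg (mem_support_iff.1 hs)
  rw [Finsupp.weight_apply, Finsupp.sum_fintype _ _ (by simp)] at h
  simp only [smul_eq_mul] at h
  simp only [mul_pow, Finset.prod_mul_distrib, ← pow_mul, Finset.prod_pow_eq_pow_sum,
    mul_comm (w _), h]
  ring

theorem scale {ι : Type} [Fintype ι] (c : ι → R) (q : ι → ℕ)
    (hk : ∀ l, Nat.card {t // c l * t = 0} = q l) (Q : (ι → R) → Prop) :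
    Nat.card {z : ι → R // Q fun l => c l * z l} =
      (∏ l, q l) * Nat.card {y // Q y ∧ ∀ l, c l ∣ y l} := by
  have h := H10.card_pre (O4.CountX.mulv c) (fun y => Q y ∧ ∀ l, c l ∣ y l) fun y hy => by
    choose t ht using hy.2
    exact ⟨t, funext fun l => (ht l).symm⟩
  have h2 : Nat.card {g : ι → R // O4.CountX.mulv c g = 0} = ∏ l, q l := by
    refine (Nat.card_congr ((Equiv.subtypeEquivRight fun g => funext_iff).trans
      (Equiv.subtypePiEquivPi (p := fun l t => c l * t = 0)))).trans ?_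
    rw [Nat.card_pi]
    exact Finset.prod_congr rfl fun l _ => hk l
  rw [← h2, ← h]
  exact Nat.card_congr (Equiv.subtypeEquivRight fun z =>
    ⟨fun hz => ⟨hz, fun l => ⟨z l, rfl⟩⟩, fun hz => hz.1⟩)

omit [CommRing R] in
theorem split [Finite R] {n : ℕ} (Z : (Fin n → R) → Prop) (D : Fin n → R → Prop) :
    Nat.card {x // Z x} = ∑ i, Nat.card {x // Z x ∧ ¬D i (x i) ∧ ∀ k < i, D k (x k)} +
      Nat.card {x // Z x ∧ ∀ l, D l (x l)} := by
  classical
  have := Fintype.ofFinite R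
  simp only [Nat.card_eq_fintype_card, Fintype.card_subtype, Finset.card_filter]
  rw [Finset.sum_comm, ← Finset.sum_add_distrib]
  refine Finset.sum_congr rfl fun x _ => ?_
  by_cases hx : Z x
  · by_cases h : ∃ i, ¬D i (x i)
    · obtain ⟨i, hi, hm⟩ := (wellFounded_lt (α := Fin n)).has_min {i | ¬D i (x i)} h
      rw [Finset.sum_eq_single i (fun j _ hj => if_neg fun hj' => ?_) (by simp), if_pos hx,
        if_pos ⟨hx, hi, fun k hk => not_not.1 fun hk' => hm k hk' hk⟩,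
        if_neg fun h' => hi (h'.2 i)]
      rcases lt_or_gt_of_ne hj with h1 | h1
      · exact hm j hj'.2.1 h1
      · exact hi (hj'.2.2 i h1)
    · rw [if_pos hx, if_pos ⟨hx, fun l => not_not.1 fun hl => h ⟨l, hl⟩⟩,
        Finset.sum_eq_zero fun j _ => if_neg fun hj => h ⟨j, hj.2.1⟩]
  · simp [hx]

/-- the exponents of the scaling in a slice -/
def ex {n : ℕ} (w : Fin (n + 1) → ℕ) (i : Fin (n + 1)) (l : Fin n) : ℕ :=
  if l.castSucc < i then w (i.succAbove l) else 0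

/-- the number of points in a slice -/
noncomputable def sl {n : ℕ} (w : Fin (n + 1) → ℕ) (Z : (Fin (n + 1) → R) → Prop) (π : R)
    (i : Fin (n + 1)) (a : R) : ℕ :=
  Nat.card {y : Fin n → R // Z (i.insertNth a y) ∧ ∀ l, π ^ ex w i l ∣ y l}

theorem sl_orb {n : ℕ} {w : Fin (n + 1) → ℕ} {Z : (Fin (n + 1) → R) → Prop}
    (hZ : ∀ (u : Rˣ) x, Z (fun k => u ^ w k * x k) ↔ Z x) (π : R) (i : Fin (n + 1)) (u : Rˣ)
    (a : R) : sl w Z π i (u ^ w i * a) = sl w Z π i a := by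
  refine (Nat.card_congr (Equiv.subtypeEquiv
    (Equiv.piCongrRight fun l => (u ^ w (i.succAbove l)).mulLeft) fun y => ?_)).symm
  refine and_congr ((hZ u _).symm.trans (Eq.to_iff (congrArg Z ?_))) (forall_congr' fun l => ?_)
  · rw [funext_iff, Fin.forall_iff_succAbove i]
    simp
  · exact Units.dvd_mul_left.symm

open Classical in
theorem chart [Fintype R] {n : ℕ} (w : Fin (n + 1) → ℕ) (Z : (Fin (n + 1) → R) → Prop) (π : R)
    (i : Fin (n + 1)) :
    Nat.card {x // Z x ∧ ¬π ^ w i ∣ x i ∧ ∀ k < i, π ^ w k ∣ x k} =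
      ∑ a, if π ^ w i ∣ a then 0 else sl w Z π i a := by
  refine (Nat.card_congr ((Equiv.subtypeEquiv (Fin.insertNthEquiv (fun _ => R) i).symm
    fun x => ?_).trans (Equiv.subtypeProdEquivSigmaSubtype fun a y =>
      ¬π ^ w i ∣ a ∧ Z (i.insertNth a y) ∧ ∀ l, π ^ ex w i l ∣ y l))).trans ?_
  · obtain ⟨⟨a, y⟩, rfl⟩ := (Fin.insertNthEquiv (fun _ => R) i).surjective x
    rw [Equiv.symm_apply_apply, Fin.forall_iff_succAbove i, and_left_comm]
    simp only [Fin.insertNthEquiv_apply, Fin.insertNth_apply_same, Fin.insertNth_apply_succAbove,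
      lt_irrefl, false_imp_iff, true_and, Fin.succAbove_lt_iff_castSucc_lt]
    refine and_congr_right' (and_congr_right' (forall_congr' fun l => ?_))
    unfold ex
    split_ifs with h <;> simp [h]
  · rw [Nat.card_sigma]
    refine Finset.sum_congr rfl fun a _ => ?_
    split_ifs with h
    · simp [h]
    · simp only [h, not_false_iff, true_and, sl]

theorem ev_sb {n : ℕ} (i : Fin (n + 1)) (a : ℤ) (c : Fin n → ℤ) (z : Fin n → R)
    (g : MvPolynomial (Fin (n + 1)) ℤ) : aeval z (aeval (sb i a c) g) =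
      aeval (i.insertNth a fun l => c l * z l : Fin (n + 1) → R) g := by
  rw [comp_aeval_apply]
  refine congrArg (fun v => aeval v g) ?_
  rw [funext_iff, Fin.forall_iff_succAbove i]
  exact ⟨by simp [sb], fun l => by simp [sb]⟩

theorem sum_fib {G H : Type} [AddCommGroup G] [AddCommGroup H] [Fintype G] [Fintype H]
    (φ : G →+ H) (hs : ∀ h, ∃ g, φ g = h) (F : H → ℕ) :
    Nat.card H * ∑ g, F (φ g) = Nat.card G * ∑ h, F h := by
  classical
  have h := H10.card_pre φ (fun _ => True) fun h _ => hs h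
  rw [Nat.card_subtype_true, Nat.card_subtype_true] at h
  rw [h, mul_right_comm, mul_comm _ (Nat.card H), ← Finset.sum_fiberwise Finset.univ φ,
    Finset.mul_sum _ _ (Nat.card {g // φ g = 0})]
  refine congrArg _ (Finset.sum_congr rfl fun b _ => ?_)
  rw [Finset.sum_congr rfl fun y hy => congrArg F (Finset.mem_filter.1 hy).2, Finset.sum_const,
    smul_eq_mul, ← Fintype.card_subtype, ← Nat.card_eq_fintype_card,
    H10.card_pre φ (fun t => t = b) fun t _ => hs t]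
  simp

end general

variable {p : ℕ} (hp : p.Prime)
include hp

theorem kerd {k m : ℕ} (h : k ≤ m) :
    Nat.card {t : ZMod (p ^ m) // (p : ZMod (p ^ m)) ^ k * t = 0} = p ^ k := by
  obtain ⟨e, rfl⟩ : ∃ e, m = e + k := ⟨m - k, by omega⟩
  let ρ := ZMod.castHom (pow_dvd_pow p (Nat.le_add_right e k)) (ZMod (p ^ e))
  have h := H10.card_pre ρ.toAddMonoidHom (fun _ => True) fun h _ => ZMod.ringHom_surjective ρ h
  rw [Nat.card_subtype_true, Nat.card_subtype_true, Nat.card_zmod, Nat.card_zmod] at h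
  exact (Nat.card_congr (Equiv.subtypeEquivRight fun t => O4.CountX.key hp e k t)).trans
    (Nat.eq_of_mul_eq_mul_right (pow_pos hp.pos e) (((mul_comm _ _).trans
      (pow_add p e k).symm).trans h)).symm

theorem vertex {σ κ : Type} [Fintype σ] {f : κ → MvPolynomial σ ℤ} {w : σ → ℕ} {d : ℕ}
    (hf : ∀ j, (f j).IsWeightedHomogeneous w d) (e : ℕ) :
    Nat.card {z : σ → ZMod (p ^ (e + d)) //
        ∀ j, aeval (fun l => (p : ZMod (p ^ (e + d))) ^ w l * z l) (f j) = 0} =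
      (p ^ d) ^ Fintype.card σ * Nat.card {x : σ → ZMod (p ^ e) // ∀ j, aeval x (f j) = 0} := by
  let ρ := ZMod.castHom (pow_dvd_pow p (Nat.le_add_right e d)) (ZMod (p ^ e))
  let φ : (σ → ZMod (p ^ (e + d))) →+ (σ → ZMod (p ^ e)) := ρ.toAddMonoidHom.compLeft σ
  have hs : ∀ h, ∃ g, φ g = h := (ZMod.ringHom_surjective ρ).comp_left
  have h := H10.card_pre φ (fun _ => True) fun h _ => hs h
  rw [Nat.card_subtype_true, Nat.card_subtype_true, Nat.card_fun, Nat.card_fun, Nat.card_zmod,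
    Nat.card_zmod, Nat.card_eq_fintype_card (α := σ)] at h
  have h2 := H10.card_pre φ (fun x => ∀ j, aeval x (f j) = 0) fun h _ => hs h
  generalize Nat.card {g // φ g = 0} = c at h h2
  have h0 := hp.pos
  rw [pow_add, mul_pow, mul_comm] at h
  rw [Nat.eq_of_mul_eq_mul_right (by positivity) h, ← h2]
  refine Nat.card_congr (Equiv.subtypeEquivRight fun z => forall_congr' fun j => ?_)
  rw [hom (hf j), O4.CountX.key hp]
  exact Eq.congr_left (comp_aeval_apply z ρ.toIntAlgHom (f j))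

theorem root {w : ℕ} (hw : w ≠ 0) : ∃ e, ∀ (m : ℕ) (s : ZMod (p ^ m)),
    ∃ u : (ZMod (p ^ m))ˣ, (u : ZMod (p ^ m)) ^ w = 1 + p ^ e * s := by
  have : Fact p.Prime := ⟨hp⟩
  have h0 : 0 < ‖(w : ℤ_[p])‖ ^ 2 := pow_pos (norm_pos_iff.2 (Nat.cast_ne_zero.2 hw)) 2
  obtain ⟨e, he⟩ := exists_pow_lt_of_lt_one h0 (PadicInt.norm_lt_one_iff_dvd (p : ℤ_[p]) |>.2 dvd_rfl)
  refine ⟨e, fun m s => ?_⟩
  have : NeZero (p ^ m) := ⟨pow_ne_zero _ hp.ne_zero⟩
  obtain ⟨s, rfl⟩ := ZMod.natCast_zmod_surjective s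
  obtain ⟨z, hz, hz1, -⟩ := hensels_lemma (p := p) (R := ℤ_[p])
    (F := Polynomial.X ^ w - Polynomial.C (1 + (p : ℤ_[p]) ^ e * s)) (a := 1) (by
      simp only [map_sub, map_pow, Polynomial.aeval_X, Polynomial.aeval_C, one_pow,
        Polynomial.derivative_X_pow, Polynomial.derivative_C, sub_zero, map_mul, mul_one,
        Algebra.algebraMap_self, RingHom.id_apply, sub_add_cancel_left, norm_neg, norm_mul,
        norm_pow]
      exact lt_of_le_of_lt (mul_le_of_le_one_right (by positivity) (PadicInt.norm_le_one _)) he)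
  have hu : IsUnit z := by
    by_contra h
    have h1 := PadicInt.not_isUnit_iff.1 h
    have h2 := PadicInt.norm_lt_one_add h1 (show ‖1 - z‖ < 1 from
      norm_sub_rev z 1 ▸ hz1.trans_le (PadicInt.norm_le_one _))
    simp at h2
  simp only [map_sub, map_pow, Polynomial.aeval_X, Polynomial.aeval_C, Algebra.algebraMap_self,
    RingHom.id_apply, sub_eq_zero] at hz
  refine ⟨(hu.map (PadicInt.toZModPow m)).unit, ?_⟩
  simpa using congrArg (PadicInt.toZModPow m) hz

theorem orbit (w : ℕ) : ∃ E, w ≤ E ∧ ∀ (m : ℕ) (a s : ZMod (p ^ m)),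
    ¬(p : ZMod (p ^ m)) ^ w ∣ a → ∃ u : (ZMod (p ^ m))ˣ, u ^ w * a = a + p ^ E * s := by
  rcases eq_or_ne w 0 with rfl | hw
  · exact ⟨0, le_rfl, fun m a s h => absurd (by simp) h⟩
  obtain ⟨e, he⟩ := root hp hw
  refine ⟨w + e, by omega, fun m a s h => ?_⟩
  have : NeZero (p ^ m) := ⟨pow_ne_zero _ hp.ne_zero⟩
  obtain ⟨a, rfl⟩ := ZMod.natCast_zmod_surjective a
  have ha : a ≠ 0 := by
    rintro rfl
    exact h (by simp)
  obtain ⟨k, b, hb, rfl⟩ := Nat.exists_eq_pow_mul_and_not_dvd ha p hp.ne_one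
  obtain ⟨j, rfl⟩ : ∃ j, w = k + j := Nat.exists_eq_add_of_le (not_lt.1 fun hk => h (by
    push_cast
    exact (pow_dvd_pow _ hk.le).mul_right _))
  obtain ⟨c, hc⟩ := ((ZMod.isUnit_iff_coprime b (p ^ m)).2
    (Nat.Coprime.pow_right _ ((Nat.Prime.coprime_iff_not_dvd hp).2 hb).symm)).exists_left_inv
  obtain ⟨u, hu⟩ := he m (p ^ j * s * c)
  refine ⟨u, ?_⟩
  rw [hu]
  push_cast
  linear_combination (p : ZMod (p ^ m)) ^ (k + j + e) * s * hc

omit hp in
open Classical in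
theorem classes {n : ℕ} {w : Fin (n + 1) → ℕ} (i : Fin (n + 1)) {E m : ℕ} [NeZero (p ^ E)]
    [NeZero (p ^ m)] (h1 : w i ≤ E) (h2 : E ≤ m) (h3 : ∀ a s : ZMod (p ^ m),
      ¬(p : ZMod (p ^ m)) ^ w i ∣ a → ∃ u : (ZMod (p ^ m))ˣ, u ^ w i * a = a + p ^ E * s)
    {Z : (Fin (n + 1) → ZMod (p ^ m)) → Prop}
    (hZ : ∀ (u : (ZMod (p ^ m))ˣ) x, Z (fun k => u ^ w k * x k) ↔ Z x) :
    p ^ E * Nat.card {x // Z x ∧ ¬(p : ZMod (p ^ m)) ^ w i ∣ x i ∧
        ∀ k < i, (p : ZMod (p ^ m)) ^ w k ∣ x k} =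
      p ^ m * ∑ b : {b : ZMod (p ^ E) // ¬p ^ w i ∣ b.val}, sl w Z p i b.1.val := by
  let ρ := ZMod.castHom (pow_dvd_pow p h2) (ZMod (p ^ E))
  have h := sum_fib ρ.toAddMonoidHom (ZMod.ringHom_surjective ρ)
    fun b => if ¬p ^ w i ∣ b.val then sl w Z p i b.val else 0
  rw [Nat.card_zmod, Nat.card_zmod] at h
  rw [← Finset.sum_subtype (Finset.univ.filter fun b : ZMod (p ^ E) => ¬p ^ w i ∣ b.val) (by simp)
    fun b => sl w Z p i b.val, Finset.sum_filter, ← h, chart]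
  refine congrArg _ (Finset.sum_congr rfl fun a _ => ?_)
  obtain ⟨a, rfl⟩ := ZMod.natCast_zmod_surjective a
  have e1 : (ρ.toAddMonoidHom a).val = a % p ^ E := by
    rw [← ZMod.val_natCast, ← map_natCast ρ]
    rfl
  have e2 : (p : ZMod (p ^ m)) ^ w i ∣ a ↔ p ^ w i ∣ a % p ^ E := by
    rw [Nat.dvd_mod_iff (pow_dvd_pow p h1)]
    refine ⟨fun ⟨y, hy⟩ => ?_, fun hy => by exact_mod_cast Nat.cast_dvd_cast hy⟩
    obtain ⟨y, rfl⟩ := ZMod.natCast_zmod_surjective y
    rw [← Nat.cast_pow, ← Nat.cast_mul, ZMod.natCast_eq_natCast_iff] at hy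
    exact (hy.dvd_iff (pow_dvd_pow p (h1.trans h2))).2 (dvd_mul_right _ _)
  rw [e1]
  by_cases ha : (p : ZMod (p ^ m)) ^ w i ∣ a
  · rw [if_pos ha, if_neg (not_not.2 (e2.1 ha))]
  rw [if_neg ha, if_pos (mt e2.2 ha)]
  obtain ⟨u, hu⟩ := h3 a (-(a / p ^ E : ℕ)) ha
  rw [← sl_orb hZ p i u, hu]
  refine congrArg _ ?_
  have e3 := congrArg (Nat.cast : ℕ → ZMod (p ^ m)) (Nat.mod_add_div a (p ^ E))
  rw [Nat.cast_add, Nat.cast_mul, Nat.cast_pow] at e3
  linear_combination -e3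

end CountX

open CountX Classical in
theorem rCount : SCount := by
  intro n r d p w f hp hd hf
  have p0 : (p : ℚ) ≠ 0 := Nat.cast_ne_zero.2 hp.ne_zero
  have hz : ∀ m, NeZero (p ^ m) := fun m => ⟨pow_ne_zero _ hp.ne_zero⟩
  choose E hE hO using fun i => orbit hp (w i)
  obtain ⟨q, hq⟩ : ∃ q : Fin (n + 1) → ℚ,
    ∀ i, q i = ((p : ℚ) ^ E i * ∏ l, (p : ℚ) ^ ex w i l)⁻¹ := ⟨_, fun _ => rfl⟩
  refine ⟨Σ i, {b : ZMod (p ^ E i) // ¬p ^ w i ∣ b.val}, inferInstance, fun t => t.1,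
    fun t => t.2.1.val, fun t l => p ^ ex w t.1 l, fun t => q t.1, PowerSeries.trunc (d + ∑ i, E i)
    ((1 - PowerSeries.C (((p : ℚ) ^ ∑ l, w l)⁻¹) * PowerSeries.X ^ d) * H10.wser f p -
      ∑ t : Σ i, {b : ZMod (p ^ E i) // ¬p ^ w i ∣ b.val}, PowerSeries.C (q t.1) *
        H10.wser (fun j => aeval (sb t.1 t.2.1.val fun l => p ^ ex w t.1 l) (f j)) p),
    fun t => ⟨fun h => t.2.2 (by simp [h]), fun h => t.2.2 (by simp [Nat.cast_eq_zero.1 h]),
      fun l => pow_ne_zero _ (Nat.cast_ne_zero.2 hp.ne_zero)⟩, ?_⟩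
  ext m
  rw [map_add, Polynomial.coeff_coe, PowerSeries.coeff_trunc]
  split_ifs with hm
  · rw [map_sub, add_sub_cancel]
  obtain ⟨e, rfl⟩ : ∃ e, m = e + d := ⟨m - d, by omega⟩
  have hm' : ∀ i, E i ≤ e + d := fun i => by
    have := Finset.single_le_sum (f := E) (fun _ _ => Nat.zero_le _) (Finset.mem_univ i)
    omega
  have h1 := split (fun x : Fin (n + 1) → ZMod (p ^ (e + d)) => ∀ j, aeval x (f j) = 0)
    fun l t => (p : ZMod (p ^ (e + d))) ^ w l ∣ t
  have h3 := (scale _ _ (fun l => kerd hp ((hE l).trans (hm' l)))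
    fun x => ∀ j, aeval x (f j) = 0).symm.trans (vertex hp hf e)
  rw [Fintype.card_fin, Finset.prod_pow_eq_pow_sum] at h3
  have h4 : ∀ i : Fin (n + 1), (Nat.card {x : Fin (n + 1) → ZMod (p ^ (e + d)) //
      (∀ j, aeval x (f j) = 0) ∧ ¬(p : ZMod (p ^ (e + d))) ^ w i ∣ x i ∧
        ∀ k < i, (p : ZMod (p ^ (e + d))) ^ w k ∣ x k} : ℚ) =
      p ^ (e + d) * ∑ b : {b : ZMod (p ^ E i) // ¬p ^ w i ∣ b.val}, q i *
        Nat.card {z : Fin n → ZMod (p ^ (e + d)) //
          ∀ j, aeval z (aeval (sb i b.1.val fun l => p ^ ex w i l) (f j)) = 0} := fun i => by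
    have h := congrArg (Nat.cast : ℕ → ℚ) (classes i (hE i) (hm' i) (hO i _)
      (Z := fun x => ∀ j, aeval x (f j) = 0) fun u x => forall_congr' fun j => by
        rw [hom (hf j), (u.isUnit.pow _).mul_right_eq_zero])
    push_cast at h
    rw [eq_div_of_mul_eq (pow_ne_zero _ p0) ((mul_comm _ _).trans h), mul_div_assoc,
      Finset.sum_div]
    refine congrArg _ (Finset.sum_congr rfl fun b _ => ?_)
    simp only [ev_sb, Int.cast_pow, Int.cast_natCast]
    rw [scale _ _ (fun l => kerd hp (k := ex w i l) (by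
        unfold ex
        split_ifs
        exacts [(hE _).trans (hm' _), Nat.zero_le _]))
      fun y => ∀ j, aeval (i.insertNth (b.1.val : ZMod (p ^ (e + d))) y : Fin (n + 1) → _)
        (f j) = 0, hq, sl]
    push_cast
    field_simp
  have h5 := congrArg (Nat.cast : ℕ → ℚ) h1
  have h6 := congrArg (Nat.cast : ℕ → ℚ) h3
  rw [Nat.cast_add, Nat.cast_sum, Finset.sum_congr rfl fun i _ => h4 i] at h5
  push_cast at h6
  simp only [sub_mul, one_mul, mul_assoc, map_sub, PowerSeries.coeff_C_mul,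
    PowerSeries.coeff_X_pow_mul', map_sum, H10.wser, PowerSeries.coeff_mk, Fintype.card_fin,
    Nat.le_add_left, if_true, Nat.add_sub_cancel, add_zero]
  rw [h5, add_mul, Finset.sum_mul, add_sub_assoc, Fintype.sum_sigma]
  refine (congrArg₂ (· + ·) (Finset.sum_congr rfl fun i _ => ?_) ?_).trans (add_zero _)
  · rw [mul_right_comm, Finset.mul_sum]
    refine Finset.sum_congr rfl fun b _ => ?_
    simp only [inv_pow, ← pow_mul]
    field_simp
    ring
  · rw [eq_div_of_mul_eq (pow_ne_zero _ p0) ((mul_comm _ _).trans h6)]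
    simp only [inv_pow, ← pow_mul]
    field_simp
    ring

end Pool.Agent.MP_5d9b3c_ag.O5
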