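import Mathlib

/-!
Ideals generated by weighted homogeneous polynomials of one degree with many invariant logarithmic
pluricanonical forms.
-/

namespace Pool.Agent.MP_5d9b3c_ag.O5

open MvPolynomial

/-- There are `N` algebraically independent polynomials `h l` of `w`-degree `c d - m ∑ w i` such
that the forms `h l (dx) ^ m / g ^ c`, with `g` a local generator of `I`, have at most logarithmic
poles after pull-back by any map `ψ` to affine `N`-space from a variety with etale coordinates `z`
in which `I` is generated by a monomial. -/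
def LogGeneral {N : ℕ} (w : Fin N → ℕ) (I : Ideal (MvPolynomial (Fin N) ℂ)) (d : ℕ) : Prop :=
  ∃ (h : Fin N → MvPolynomial (Fin N) ℂ) (m c κ : ℕ), AlgebraicIndependent ℂ h ∧
    (∀ l, (h l).IsWeightedHomogeneous w κ) ∧ κ + m * ∑ i, w i = c * d ∧
    ∀ (B : Type) [CommRing B] [IsDomain B] [Algebra ℂ B] (z : Fin N → B)
      (D : Fin N → Derivation ℂ B B) (ψ : Fin N → B) (a : Fin N → ℕ),
      (aeval (R := ℂ) z).toRingHom.Etale → (∀ i j, D i (z j) = if i = j then 1 else 0) →
      I.map (aeval ψ) = Ideal.span {∏ i, z i ^ a i} → ∀ l, (∏ i, z i ^ a i) ^ c ∣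
        aeval ψ (h l) * ((Matrix.of fun k i => D i (ψ k)).det * ∏ i with a i ≠ 0, z i) ^ m

end Pool.Agent.MP_5d9b3c_ag.O5
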