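import Pool.Agent.MP_5d9b3c_ag.O5.Spec
import Pool.Agent.MP_5d9b3c_ag.O4.Deh

/-! Dehomogenisation of the functional equation along a variable of nonzero weight. -/

namespace Pool.Agent.MP_5d9b3c_ag.O5

open MvPolynomial

open O4.DehX in
theorem rDeh : SDeh := by
  classical
  intro σ τ _ _ ε w d F b a c v hF w0 a0 hc v0 v1 ⟨D, P, hP, hb⟩
  have hk : (C ((w (ε none) : ℂ) * a)⁻¹ : MvPolynomial τ ℂ) *
      ((w (ε none) : MvPolynomial τ ℂ) * C a) = 1 := by
    rw [← map_natCast (C : ℂ →+* MvPolynomial τ ℂ), ← map_mul, ← map_mul,
      inv_mul_cancel₀ (mul_ne_zero (Nat.cast_ne_zero.2 w0) a0), map_one]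
  have h1 : ∀ u j, pderiv j (aeval v u) = C (c j) * aeval v (pderiv (ε (some j)) u) :=
    fun u j => by
    rw [chain, ← ε.sum_comp, Fintype.sum_option, v0, Finset.sum_eq_single j
      (fun b _ hb => by simp [v1, Pi.single_eq_of_ne hb]) (by simp)]
    simp [v1, mul_comm]
  have h2 : ∀ Q ∈ H72.weyl σ, Good (aeval v F) fun n => aeval v (Q (F ^ (n + 1))) := by
    intro Q hQ
    rw [H72.weyl, ← Subalgebra.mem_toSubmodule, Algebra.adjoin_eq_span] at hQ
    induction hQ using Submodule.span_induction with
    | mem Q hQ =>
      replace hQ := SetLike.mem_coe.1 hQ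
      suffices H : ∃ δ : ℤ, (∀ n : ℕ, eu w (Q (F ^ (n + 1))) =
          (((n : MvPolynomial σ ℂ) + 1) * d + δ) * Q (F ^ (n + 1))) ∧
          Good (aeval v F) fun n => aeval v (Q (F ^ (n + 1))) from H.choose_spec.2
      induction hQ using Submonoid.closure_induction_left with
      | one =>
        refine ⟨0, fun n => ?_, 1, fun n => by simp⟩
        have h := (hF.pow (n + 1)).sum_weight_X_mul_pderiv
        simp only [nsmul_eq_mul, smul_eq_mul] at h
        simpa [eu] using h
      | mul_left x hx y _ ih =>
        obtain ⟨δ, e, ih⟩ := ih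
        rcases hx with ⟨j, rfl⟩ | ⟨j, rfl⟩
        · refine ⟨δ + w j, fun n => ?_, (ih.mul (v j)).congr fun n => by simp⟩
          simp only [Module.End.mul_apply, LinearMap.mulLeft_apply, eu_X, e]
          push_cast
          ring
        · refine ⟨δ - w j, fun n => ?_, ?_⟩
          · simp only [Module.End.mul_apply, Derivation.coeFn_coe, eu_d, e, Derivation.leibniz,
              smul_eq_mul, map_add, Derivation.map_natCast, Derivation.map_intCast,
              Derivation.map_one_eq_zero]
            push_cast
            ring
          · obtain ⟨j, rfl⟩ := ε.surjective j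
            rcases j with _ | j
            · refine ((((ih.mul d).nat.add (ih.mul (d + δ))).add (Good.sum Finset.univ _
                fun l _ => (ih.der l).mul (-((w (ε (some l)) : MvPolynomial τ ℂ) * X l)))).mul
                  (C ((w (ε none) : ℂ) * a)⁻¹)).congr fun n => ?_
              have h3 := congrArg (aeval v) (e n)
              rw [eu, map_sum, ← ε.sum_comp, Fintype.sum_option] at h3
              simp only [map_mul, aeval_X, v0, v1, map_add, map_natCast, map_intCast,
                map_one] at h3
              have h4 : ∀ l, -((w (ε (some l)) : MvPolynomial τ ℂ) * X l) *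
                  pderiv l (aeval v (y (F ^ (n + 1)))) =
                  -((w (ε (some l)) : MvPolynomial τ ℂ) * (C (c l) * X l *
                    aeval v (pderiv (ε (some l)) (y (F ^ (n + 1)))))) := fun l => by
                rw [h1]
                ring
              simp only [Module.End.mul_apply, Derivation.coeFn_coe, h4, Finset.sum_neg_distrib]
              linear_combination C ((w (ε none) : ℂ) * a)⁻¹ * h3 -
                aeval v (pderiv (ε none) (y (F ^ (n + 1)))) * hk
            · refine ((ih.der j).mul (C (c j)⁻¹)).congr fun n => ?_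
              rw [h1, ← mul_assoc, ← map_mul, inv_mul_cancel₀ (hc j), map_one, one_mul]
              rfl
    | zero => simpa using Good.zero
    | add P Q _ _ h1 h2 => simpa only [LinearMap.add_apply, map_add] using h1.add h2
    | smul a P _ h => exact (h.mul (C a)).congr fun n => by simp [smul_eq_C_mul]
  refine ((Good.sum (Finset.range D) _ fun t _ => (h2 _ (hP t)).pow t).congr fun n => ?_).out
  have h := congrArg (aeval v) (hb n)
  rw [map_smul, map_pow] at h
  rw [← h, map_sum]
  refine Finset.sum_congr rfl fun t _ => ?_
  simp [smul_eq_C_mul]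

end Pool.Agent.MP_5d9b3c_ag.O5
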