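import Pool.Agent.MP_5d9b3c_ag.O5.Defs
import Pool.Agent.MP_5d9b3c_ag.H10.Count
import Pool.Agent.MP_ee8c61_ag.H10.Defs

/-! Weighted homogeneous polynomials of one degree: the statements. -/

namespace Pool.Agent.MP_5d9b3c_ag.O5

open MvPolynomial

noncomputable section

/-- The coordinate `i` is the constant `a` and the others are scaled. -/
def sb {n : ℕ} (i : Fin (n + 1)) (a : ℤ) (c : Fin n → ℤ) : Fin (n + 1) → MvPolynomial (Fin n) ℤ :=
  i.insertNth (C a) fun l => C (c l) * X l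

/-- The series of the ideal and of its slices. -/
def SCount : Prop := ∀ (n r d p : ℕ) (w : Fin (n + 1) → ℕ)
  (f : Fin r → MvPolynomial (Fin (n + 1)) ℤ), p.Prime → 0 < d →
  (∀ j, (f j).IsWeightedHomogeneous w d) →
  ∃ (ι : Type) (_ : Fintype ι) (i : ι → Fin (n + 1)) (a : ι → ℤ) (c : ι → Fin n → ℤ) (q : ι → ℚ)
    (R : Polynomial ℚ), (∀ t, w (i t) ≠ 0 ∧ a t ≠ 0 ∧ ∀ l, c t l ≠ 0) ∧
    (1 - PowerSeries.C (((p : ℚ) ^ ∑ l, w l)⁻¹) * PowerSeries.X ^ d) * H10.wser f p =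
      ∑ t, PowerSeries.C (q t) * H10.wser (fun j => aeval (sb (i t) (a t) (c t)) (f j)) p +
        (R : PowerSeries ℚ)

/-- Dehomogenisation of the functional equation. -/
def SDeh : Prop := ∀ (σ τ : Type) [Fintype σ] [Fintype τ] (ε : Option τ ≃ σ) (w : σ → ℕ) (d : ℕ)
  (F : MvPolynomial σ ℂ) (b : Polynomial ℂ) (a : ℂ) (c : τ → ℂ) (v : σ → MvPolynomial τ ℂ),
  F.IsWeightedHomogeneous w d → w (ε none) ≠ 0 → a ≠ 0 → (∀ j, c j ≠ 0) → v (ε none) = C a →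
  (∀ j, v (ε (some j)) = C (c j) * X j) → H72.IsBFunction F b → H72.IsBFunction (aeval v F) b

/-- The monomial valuation gives a root. -/
def SRoot : Prop := ∀ (n r d : ℕ) (w : Fin (n + 1) → ℕ)
  (f : Fin r → MvPolynomial (Fin (n + 1)) ℂ) (b : Polynomial ℂ), 0 < d →
  (∀ j, (f j).IsWeightedHomogeneous w d) → f ≠ 0 → LogGeneral w (Ideal.span (Set.range f)) d →
  MP_ee8c61_ag.H10.IsBS f b → b.eval (-((∑ l, w l : ℕ) / d : ℂ)) = 0

end

end Pool.Agent.MP_5d9b3c_ag.O5
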