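import Pool.Agent.MP_5d9b3c_ag.O5.Ord
import Pool.Agent.MP_5d9b3c_ag.O5.Spec
import Pool.Agent.MP_5d9b3c_ag.O4.RCht
import Pool.Agent.MP_ee8c61_ag.TW.Final

/-! The monomial valuation gives a root. -/

namespace Pool.Agent.MP_ee8c61_ag.N3.O5

open MvPolynomial M3 N3.M3E Finset
open Pool.Agent.MP_ee8c61_ag.TC (Indep rowSs)
open Pool.Agent.MP_ee8c61_ag.TC.RCht (res)
open Pool.Agent.MP_ee8c61_ag.TC.RInd
open Pool.Agent.MP_5d9b3c_ag.O5
open O4 (ex mon_prod ex_ne)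

variable {N n : ℕ} {w : Fin N → ℕ}

theorem wh_aeval {h : Fin n → M3.Po N} {κ e : ℕ} (hh : ∀ l, (h l).IsWeightedHomogeneous w κ)
    {P : M3.Po n} (hP : P.IsHomogeneous e) : (aeval h P).IsWeightedHomogeneous w (e * κ) := by
  rw [P.as_sum, map_sum]
  refine IsWeightedHomogeneous.sum _ _ _ fun s hs => ?_
  rw [aeval_monomial, hP.degree_eq_sum_deg_support hs, sum_mul]
  exact (IsWeightedHomogeneous.prod _ _ _ fun i _ => (hh i).pow (s i)).C_mul _

variable [Base]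

theorem disc {f : Po N} {M : Mod N} {o : M.J} (hM : M.OK f) (e : (M.v o).O = (dv w).O) :
    ∃ g : ℤ, (∀ x, (dv w).v x = (M.v o).v x * g) ∧ (0 < g → (M.k o + 1) * g = ∑ l, (w l : ℤ)) := by
  have B := eout.bas _ f M hM
  obtain ⟨b, hb⟩ := hM.ne o
  obtain ⟨h1, h2, -⟩ := hM.dv b o hb
  obtain ⟨-, -, ⟨l0, hl⟩, -⟩ := B.in_v b _ o h1 ((B.thru_v o o).2 rfl)
  obtain ⟨U, hU, hd⟩ := hM.det b
  have pr := M3B1.dv_prop e h2
  refine ⟨_, pr, fun g0 => ?_⟩
  have hPA : (Matrix.of fun j l => M3B1.pd N l (M.S.z b j)) *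
      (Matrix.of fun l i => M.S.D b i (M.S.r l)) = 1 := by
    ext j i
    have h := M3B1.chain (M.S.D b i) (M.S.z b j)
    rw [M.S.D_z] at h
    rw [Matrix.mul_apply, Matrix.one_apply, if_congr eq_comm rfl rfl, h, hM.r]
    exact Finset.sum_congr rfl fun l _ => mul_comm _ _
  have hP := det_mem (dv w) (Matrix.of fun j l => M3B1.pd N l (M.S.z b j))
    (fun j => if j = l0 then (dv w).v (M.η b o) else 0) (fun l => w l) fun j l => der l _ _ (by
      split_ifs with k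
      · rw [k, ← M.S.η_some b o l0 hl]
        exact (dv w).mem_F_self _
      · exact (dv w).mem_O.1 (e ▸ h1 _ (M.S.z_mem b j)))
  have hQ := det_mem (M.v o) (Matrix.of fun l i => M.S.D b i (M.S.r l))
    (fun l => (M.v o).v (M.S.r l)) (fun i => if i = l0 then 1 else 0) fun l i =>
      (eout.der N f M hM).ord b o l0 h1 hl i _ _ ((M.v o).mem_F_self _)
  have hdet := congrArg Matrix.det hPA
  rw [Matrix.det_mul, Matrix.det_one] at hdet
  have hP0 := left_ne_zero_of_mul_eq_one hdet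
  have hQ0 := right_ne_zero_of_mul_eq_one hdet
  have hu : (M.v o).v U = 0 :=
    ((M.v o).un_O.1 ⟨U.ne_zero, h1 _ hU.1, by simpa using h1 _ hU.2⟩).2
  have hk : (M.v o).v (Matrix.of fun l i => M.S.D b i (M.S.r l)).det = M.k o := by
    rw [hd, (M.v o).mul _ _ U.ne_zero (M.mon_ne b _), hu, B.v_mon b o _ h1, zero_add]
    rfl
  have hv := congrArg (M.v o).v hdet
  rw [(M.v o).mul _ _ hP0 hQ0, (M.v o).one, hk] at hv
  have h3 := hP.resolve_left hP0
  have h4 := mul_le_mul_of_nonneg_right (hQ.resolve_left hQ0) g0.le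
  have h5 : ∀ l, (M.v o).v (M.S.r l) * (dv w).v (M.η b o) = w l := fun l => by
    rw [← pr, hM.r]
    exact dv_hom (X_ne_zero l) (isWeightedHomogeneous_X ℂ w l)
  rw [pr (Matrix.det _), eq_neg_of_add_eq_zero_left hv] at h3
  simp only [sum_ite_eq', mem_univ, if_true, sub_mul, sum_mul, h5, hk] at h3 h4
  linarith

theorem sec {r : ℕ} {F : Fin r → M3.Po (n + 1)} {j : Fin r} {M : Mod (n + 1)}
    (hM : M.OK (pp _ (F j))) (f0 : F j ≠ 0)
    (hF : ∀ i, M3.ip _ (F i) / M3.ip _ (F j) ∈ Rb (n + 1)) {h : M3.Po (n + 1)} {m c : ℕ}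
    (H : ∀ (B : Type) [CommRing B] [IsDomain B] [Algebra ℂ B] (z : Fin (n + 1) → B)
      (D : Fin (n + 1) → Derivation ℂ B B) (ψ : Fin (n + 1) → B) (a : Fin (n + 1) → ℕ),
      (aeval (R := ℂ) z).toRingHom.Etale → (∀ i j, D i (z j) = if i = j then 1 else 0) →
      (Ideal.span (Set.range F)).map (aeval ψ) = Ideal.span {∏ i, z i ^ a i} →
      (∏ i, z i ^ a i) ^ c ∣
        aeval ψ h * ((Matrix.of fun k i => D i (ψ k)).det * ∏ i with a i ≠ 0, z i) ^ m) :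
    M3.ip _ h / M3.ip _ (F j) ^ c ∈ M.H (m • (M.kk + 1)) := by
  classical
  have B := eout.bas _ _ M hM
  refine ((eout.nb _ _ M hM).H _ _).2 fun b => ?_
  let A := M.S.A b
  let z : Fin (n + 1) → A := fun i => ⟨_, M.S.z_mem b i⟩
  let ψ : Fin (n + 1) → A := fun i => ⟨_, hM.pol0 b (X i)⟩
  let D : Fin (n + 1) → Derivation ℂ A A := fun i => res A (M.S.D b i) (M.S.D_mem b i)
  have ev : ∀ p, ((aeval ψ p : A) : KK (n + 1)) = M3.ip _ p := fun p =>
    (comp_aeval_apply ψ A.val p).trans (MP_ee8c61_ag.M3L.aeval_ip p)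
  obtain ⟨U, hU, hord⟩ := hM.ord b
  obtain ⟨U', hU', hdet⟩ := hM.det b
  let u : Aˣ := ⟨⟨_, hU.1⟩, ⟨_, hU.2⟩, Subtype.ext U.mul_inv, Subtype.ext U.inv_mul⟩
  have mp : ∀ c : M.J → ℤ, 0 ≤ c → ((∏ i, z i ^ ex b c i : A) : KK (n + 1)) = M.mon b c :=
    fun c hc => (map_prod A.val _ _).trans (mon_prod b hc).symm
  have a0 : 0 ≤ M.aa := fun j => Int.natCast_nonneg _
  have ej : aeval ψ (F j) = u * ∏ i, z i ^ ex b M.aa i := Subtype.ext (by
    rw [MulMemClass.coe_mul, mp _ a0, ev]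
    exact hord)
  obtain ⟨y, hy⟩ := H A z D ψ (ex b M.aa) (hM.et b) (fun i j => Subtype.ext (by
      change M.S.D b i (M.S.z b j) = _
      rw [M.S.D_z]
      split_ifs <;> rfl)) (by
    rw [Ideal.map_span, ← Ideal.span_singleton_mul_left_unit u.isUnit, ← ej]
    refine le_antisymm (Ideal.span_le.2 ?_)
      (Ideal.span_mono (Set.singleton_subset_iff.2 ⟨_, ⟨j, rfl⟩, rfl⟩))
    rintro _ ⟨_, ⟨i, rfl⟩, rfl⟩
    refine Ideal.mem_span_singleton'.2 ⟨⟨_, hM.pol b ⟨_, hF i⟩⟩, Subtype.ext ?_⟩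
    rw [MulMemClass.coe_mul, ev, ev]
    exact div_mul_cancel₀ _ (M3B1.ip_ne f0))
  obtain ⟨ρ, hρ⟩ : ∏ i with ex b M.aa i ≠ 0, z i ∣ ∏ i, z i ^ ex b 1 i := by
    rw [prod_filter]
    refine prod_dvd_prod_of_dvd _ _ fun i _ => ?_
    split_ifs with hi
    · exact dvd_pow_self _ (ex_ne (fun j _ => le_rfl) hi)
    · exact one_dvd _
  have e1 : A.val (Matrix.of fun k i => D i (ψ k)).det = U' * M.mon b M.kk := by
    rw [AlgHom.map_det, ← hdet, hM.r]
    rfl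
  have e2 := congrArg A.val hy
  have e3 := congrArg A.val hρ
  rw [map_mul, map_pow, map_mul, e1, map_mul, map_pow] at e2
  rw [map_mul] at e3
  simp only [Subalgebra.coe_val] at e2 e3
  rw [ev, mp _ a0] at e2
  rw [mp _ zero_le_one] at e3
  refine Eq.subst (motive := (· ∈ A)) ?_
    (mul_mem (mul_mem y.2 (pow_mem (mul_mem hU'.2 ρ.2) m)) (pow_mem hU.2 c))
  have hord' : M3.ip _ (F j) = U * M.mon b M.aa := hord
  have e4 : (y : KK (n + 1)) = (M.mon b M.aa ^ c)⁻¹ * _ :=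
    (eq_inv_mul_iff_mul_eq₀ (pow_ne_zero c (M.mon_ne b _))).2 e2.symm
  rw [B.mon_nsmul, B.mon_add, e3, hord', e4, Units.val_inv_eq_inv_val, Units.val_inv_eq_inv_val]
  have a1 := M.mon_ne b M.aa
  have a4 := U.ne_zero
  have a5 := U'.ne_zero
  simp only [mul_pow, inv_pow]
  field_simp

omit [Base] in
theorem rRoot : SRoot := by
  intro n r d w F b d0 hf h0 ⟨h, m, c, κ, hI, hh, he, H⟩ hb
  obtain ⟨j, f0⟩ : ∃ j, F j ≠ 0 := Function.ne_iff.1 h0
  obtain ⟨_, gd, ov, β, Q, bs⟩ := TC.rBas _ r F j b hb f0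
  have f1 := M3B1.ip_ne f0
  have hn : ∀ l, h l ≠ 0 := hI.linearIndependent.ne_zero
  have t0 := M3B1.ip_ne (hn 0)
  have vf := dv_hom f0 (hf j)
  have ind : ∀ P : M3.Po n, P ≠ 0 →
      Un (dv w).O (aeval (fun i : Fin n => M3.ip _ (h i.succ) / M3.ip _ (h 0)) P) := fun P hP => by
    have h1 := aeval_hom P (M3.ip _ (h 0)) (fun i : Fin n => M3.ip _ (h i.succ) / M3.ip _ (h 0))
      (fun l => M3.ip _ (h l)) rfl fun i => (mul_div_cancel₀ _ t0).symm
    rw [← comp_aeval_apply] at h1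
    have h2 : aeval h (hom P.totalDegree P) ≠ 0 := fun e =>
      hom_ne hP (hI.eq_zero_of_aeval_eq_zero _ e)
    have h3 := dv_hom h2 (wh_aeval hh (hom_isHom _ P))
    have h4 := right_ne_zero_of_mul (h1 ▸ M3B1.ip_ne h2)
    rw [h1, DV.mul _ _ _ (pow_ne_zero _ t0) h4, DV.pow, dv_hom (hn 0) (hh 0)] at h3
    exact (dv w).un_O.2 ⟨h4, by push_cast at h3; linarith⟩
  obtain ⟨M, o, -, hM, e, -⟩ := TC.rReal eout B1.sb1raw (TC.rCen eout) n 0 _ (dv w).O
    (fun i => i.elim0) _ gd (dvr _ f1 (by rw [vf]; exact_mod_cast d0))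
    ((ov _).2 ⟨dv_pol, fun i => by
      by_cases k : F i = 0
      · rw [k, map_zero, zero_div]
        exact zero_mem _
      · refine Or.inr ?_
        rw [DV.div _ (M3B1.ip_ne k) f1, dv_hom k (hf i), vf, sub_self]⟩)
    (fun k => by
      have := ((dv w).un_O.1 k).2
      rw [ip_pp, vf] at this
      omega) (fun i => i.elim0) ind
  have B := eout.bas _ _ M hM
  obtain ⟨g, pr, hk⟩ := disc hM e
  have va : (M.v o).v (M3.ip _ (F j)) = M.a o :=
    ((B.gen_v o _ _).1 (B.gen_f _)).2.trans (neg_neg _)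
  have ao : (M.a o : ℤ) * g = d := by rw [← va, ← pr, vf]
  have g0 : 0 < g := pos_of_mul_pos_left
    ((mul_comm _ _).trans ao ▸ Int.natCast_pos.2 d0) (Int.natCast_nonneg (M.a o))
  replace hk := hk g0
  have se := fun l => sec hM f0 (fun i => mem_Rb.2 fun V hV => ((ov V).1 hV).2 i)
    fun B _ _ _ z D ψ a h1 h2 h3 => H B z D ψ a h1 h2 h3 l
  have f2 := pow_ne_zero c f1
  obtain ⟨w', hw⟩ := hM.amp
  obtain ⟨s, t, -, t1, t2⟩ := TC.rNk eout rowSs n _ M o _ (M.kk + 1 - w') _ (fun i => _) hM (se 0)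
    (div_ne_zero t0 f2) (mul_right_cancel₀ g0.ne' (by
      have : (κ : ℤ) + m * ∑ l, (w l : ℤ) = c * d := by exact_mod_cast he
      rw [← pr, DV.div _ t0 f2, DV.pow, vf, dv_hom (hn 0) (hh 0), ← this, ← hk]
      simp only [Pi.smul_apply, Pi.add_apply, Pi.one_apply, Mod.kk, nsmul_eq_mul]
      ring)) (fun i => se i.succ) fun P hP => by
        simp only [div_div_div_cancel_right₀ f2]
        exact (M.v o).un_O.1 (e ▸ ind P hP)
  have rm : (0 : ℚ) < (s * m + 1 : ℕ) := by exact_mod_cast Nat.succ_pos _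
  have ec : s • m • (M.kk + 1) + (M.kk + 1 - w') = (s * m + 1) • (M.kk + 1) - w' := by
    rw [smul_smul, succ_nsmul]
    abel
  rw [ec] at t1 t2
  have := M3L.sr1 eout _ _ ((∑ l, w l : ℕ) / d) b β Q M o (M.q w') (-(1 / (s * m + 1 : ℕ)))
    (s * m + 1) ((s * m + 1) • (M.kk + 1) - w') hM.gd.1 bs hM (by
      have h1 : ((∑ l, w l : ℕ) : ℚ) = (M.k o + 1) * g := by exact_mod_cast hk.symm
      have h2 : (d : ℚ) = M.a o * g := by exact_mod_cast ao.symm
      have h3 : (M.a o : ℚ) ≠ 0 := Nat.cast_ne_zero.2 (hM.pos o).ne'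
      have h4 : (g : ℚ) ≠ 0 := Int.cast_ne_zero.2 g0.ne'
      show (M.k o : ℚ) + 1 - _ * M.a o = 0
      rw [h1, h2]
      field_simp
      ring)
    ((eout.aq _ _ M hM).of_amp w' hw) (neg_lt_zero.2 (one_div_pos.2 rm)) (Nat.succ_pos _)
    (funext fun j => by
      simp only [Mod.q_apply, Mod.nu, Mod.kk, Pi.sub_apply, Pi.add_apply, Pi.smul_apply,
        Pi.one_apply, smul_eq_mul, nsmul_eq_mul, Pi.mul_apply, Pi.natCast_apply]
      have := rm.ne'
      push_cast at this ⊢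
      field_simp
      ring) t t1 t2
  simpa using this

end Pool.Agent.MP_ee8c61_ag.N3.O5
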