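import Pool.Agent.MP_5d9b3c_ag.O5.Main
import Pool.Agent.MP_5d9b3c_ag.O5.Count
import Pool.Agent.MP_5d9b3c_ag.O5.Deh
import Pool.Agent.MP_5d9b3c_ag.O5.Root
import Pool.Agent.MP_5d9b3c_ag.O3.Final

/-! The theorem for the polynomials `y_1 f_1 + ⋯ + y_r f_r` with weighted homogeneous `f_i`. -/

namespace Pool.Agent.MP_5d9b3c_ag.O5

open MvPolynomial H48G H72

theorem main {r d : ℕ} {w : Fin 4 → ℕ} {f : Fin r → MvPolynomial (Fin 4) ℤ} (hf : ∃ i, f i ≠ 0)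
    (hd : 0 < d) (hw : ∀ i, (f i).IsWeightedHomogeneous w d)
    (hL : LogGeneral w (Ideal.span (Set.range fun i => map (Int.castRingHom ℂ) (f i))) d)
    {F : MvPolynomial (Fin r ⊕ Fin 4) ℤ} (hF : F = ∑ i, X (Sum.inl i) * rename Sum.inr (f i))
    {p : ℕ} (hp : p.Prime) {A B : Polynomial ℚ} (hAB : IsCoprime A B)
    (hP : (B : PowerSeries ℚ) * poincare F p = A) {T : ℂ} (hT : Polynomial.aeval T B = 0)
    {b : Polynomial ℂ} (hb : IsBFunction (map (Int.castRingHom ℂ) F) b) :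
    b.eval ((-(Real.log ‖T‖ / Real.log p) : ℝ) : ℂ) = 0 := by
  subst hF
  exact main_of MP_ee8c61_ag.N3.core rCount rDeh MP_ee8c61_ag.N3.O5.rRoot
    (Function.ne_iff.2 hf) hd hw hL hp hAB hP hT hb

end Pool.Agent.MP_5d9b3c_ag.O5
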