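import Pool.Agent.MP_5d9b3c_ag.O5.Final

/-! Weighted homogeneous tuples in four variables: all poles but one need no hypothesis. -/

namespace Pool.Agent.MP_5d9b3c_ag.O5

open MvPolynomial H48G H72 H10 O3I

theorem main2 {r d : ℕ} {w : Fin 4 → ℕ} {f : Fin r → MvPolynomial (Fin 4) ℤ} (hf : ∃ i, f i ≠ 0)
    (hd : 0 < d) (hw : ∀ i, (f i).IsWeightedHomogeneous w d)
    {F : MvPolynomial (Fin r ⊕ Fin 4) ℤ} (hF : F = ∑ i, X (Sum.inl i) * rename Sum.inr (f i))
    {p : ℕ} (hp : p.Prime) {A B : Polynomial ℚ} (hAB : IsCoprime A B)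
    (hP : (B : PowerSeries ℚ) * poincare F p = A) {T : ℂ} (hT : Polynomial.aeval T B = 0)
    (hL : T ^ d = (p : ℂ) ^ ∑ l, w l → ∑ l, w l ≠ d →
      LogGeneral w (Ideal.span (Set.range fun i => map (Int.castRingHom ℂ) (f i))) d)
    {b : Polynomial ℂ} (hb : IsBFunction (map (Int.castRingHom ℂ) F) b) :
    b.eval ((-(Real.log ‖T‖ / Real.log p) : ℝ) : ℂ) = 0 := by
  by_cases e' : T ^ d = (p : ℂ) ^ ∑ l, w l ∧ ∑ l, w l ≠ d
  · exact main hf hd hw (hL e'.1 e'.2) hF hp hAB hP hT hb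
  subst hF
  have h0 : f ≠ 0 := Function.ne_iff.2 hf
  change (B : PowerSeries ℚ) * poincare (H10.lin f) p = A at hP
  change IsBFunction (map (Int.castRingHom ℂ) (H10.lin f)) b at hb
  have := Fact.mk hp
  by_contra hne
  have h1 : b.eval (-1) = 0 := by
    obtain ⟨d, P, h7, h8⟩ := hb
    refine H22.root_neg_one (fun h9 => deg_lin h0 ?_) h7 h8
    rwa [totalDegree, support_map_of_injective _ Int.cast_injective] at h9
  have e : T ^ d ≠ (p : ℂ) ^ ∑ l, w l := fun e => by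
    have e2 : ∑ l, w l = d := by
      by_contra e2
      exact e' ⟨e, e2⟩
    refine vert hd hne ?_ e
    rw [e2, div_self (Nat.cast_ne_zero.2 hd.ne')]
    exact h1
  obtain ⟨D, P, h2, h3⟩ := nop4 (p := p) MP_ee8c61_ag.N3.core rCount rDeh h0 hd hw
    (P3.root_ne hAB hP hT) e hb hne
  have h4 := congrArg (PowerSeries.map (algebraMap ℚ ℂ)) (countN hp f)
  have h5 := H48G.no_pole hAB hP hT (Q := D * (1 - Polynomial.C (p : ℂ)⁻¹ * Polynomial.X))
    (P := Polynomial.C (p : ℂ)⁻¹ * D + Polynomial.C (1 - (p : ℂ)⁻¹) * P) (by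
      simp only [map_mul, map_sub, map_add, map_one, PowerSeries.map_C, PowerSeries.map_X,
        map_inv₀, map_natCast] at h4
      simp only [Polynomial.coe_sub, Polynomial.coe_mul, Polynomial.coe_X, Polynomial.coe_C,
        Polynomial.coe_one, Polynomial.coe_add, mul_assoc, h4, ← h3, map_sub, map_one]
      ring)
  have hp0 : (p : ℂ) ≠ 0 := Nat.cast_ne_zero.2 hp.ne_zero
  have h6 : T = p := by
    simp only [Polynomial.eval_mul, h2, Polynomial.eval_sub, Polynomial.eval_one, mul_eq_zero,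
      Polynomial.eval_C, Polynomial.eval_X, false_or] at h5
    exact ((inv_mul_eq_one₀ hp0).1 (sub_eq_zero.1 h5).symm).symm
  rw [h6, Complex.norm_natCast, div_self (Real.log_pos (Nat.one_lt_cast.2 hp.one_lt)).ne'] at hne
  exact hne (by simpa using h1)

end Pool.Agent.MP_5d9b3c_ag.O5
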