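import Pool.Agent.MP_5d9b3c_ag.O5.Final

/-! Tuples in `3 + k` variables that are homogeneous for `k` weights with disjoint supports. -/

namespace Pool.Agent.MP_5d9b3c_ag.O5

open MvPolynomial H48G H72 H10 O3I

theorem wh_sb {n d : ℕ} {w : Fin (n + 1) → ℕ} {i : Fin (n + 1)} (hw : w i = 0) (a : ℤ)
    (c : Fin n → ℤ) {g : MvPolynomial (Fin (n + 1)) ℤ} (hg : g.IsWeightedHomogeneous w d) :
    (aeval (sb i a c) g).IsWeightedHomogeneous (fun l => w (i.succAbove l)) d := by
  have h1 : ∀ l, (sb i a c l).IsWeightedHomogeneous (fun l => w (i.succAbove l)) (w l) := by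
    intro l
    refine i.succAboveCases ?_ (fun l => ?_) l
    · rw [sb, Fin.insertNth_apply_same, hw]
      exact isWeightedHomogeneous_C _ _
    · rw [sb, Fin.insertNth_apply_succAbove]
      exact (isWeightedHomogeneous_X ℤ (fun l => w (i.succAbove l)) l).C_mul _
  rw [g.as_sum, map_sum]
  refine IsWeightedHomogeneous.sum _ _ _ fun s hs => ?_
  rw [aeval_monomial, ← hg (mem_support_iff.1 hs), Finsupp.weight_apply]
  exact (IsWeightedHomogeneous.prod _ _ _ fun l _ => (h1 l).pow (s l)).C_mul _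

variable {p r : ℕ} [Fact p.Prime] {T : ℂ} {b : Polynomial ℂ}

theorem nopk (hc : Core) (hC : SCount) (hD : SDeh) (T0 : T ≠ 0)
    (hne : b.eval ((-(Real.log ‖T‖ / Real.log p) : ℝ) : ℂ) ≠ 0) (k : ℕ) :
    ∀ (w : Fin k → Fin (3 + k) → ℕ) (d : Fin k → ℕ) (f : Fin r → MvPolynomial (Fin (3 + k)) ℤ),
      f ≠ 0 → (∀ j, 0 < d j) → (∀ j j', j ≠ j' → ∀ l, w j l = 0 ∨ w j' l = 0) →
      (∀ j i, (f i).IsWeightedHomogeneous (w j) (d j)) → (∀ j, T ^ d j ≠ p ^ ∑ l, w j l) →
      IsBFunction (map (Int.castRingHom ℂ) (H10.lin f)) b →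
      NoP T ((wser f p).map (algebraMap ℚ ℂ)) := by
  have hp : p.Prime := Fact.out
  induction k with
  | zero =>
    intro w d f h0 _ _ _ _ hb
    exact nop_w (p := p) (f := f) h0 fun j hj => hc _ _ j p b T hj T0 (bs_lin hb) hne
  | succ k ih =>
    intro w d f h0 hd hw hf hT hb
    obtain ⟨ι, _, i, a, c, q, R, k1, h⟩ := hC (3 + k) r (d 0) p (w 0) f hp (hd 0) (hf 0)
    obtain ⟨j, hj⟩ := Function.ne_iff.1 h0
    obtain ⟨Q, P, h1, h2⟩ := NoP.sum (T := T) (S := fun t : ι => PowerSeries.C (q t : ℂ) *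
      (wser (fun j => aeval (sb (i t) (a t) (c t)) (f j)) p).map (algebraMap ℚ ℂ)) Finset.univ
      fun t _ => by
        have z : ∀ j : Fin k, w j.succ (i t) = 0 := fun j =>
          (hw 0 j.succ (Fin.succ_ne_zero j).symm (i t)).resolve_left (k1 t).1
        obtain ⟨Q, P, h1, h2⟩ := ih (fun j l => w j.succ ((i t).succAbove l)) (fun j => d j.succ)
          (fun j => aeval (sb (i t) (a t) (c t)) (f j))
          (Function.ne_iff.2 ⟨j, sb_ne (k1 t).1 (k1 t).2.1 (k1 t).2.2 (hf 0 j) hj⟩)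
          (fun j => hd _) (fun j j' e l => hw _ _ (fun e' => e (Fin.succ_injective _ e')) _)
          (fun j l => wh_sb (z j) _ _ (hf _ l)) (fun j e => hT j.succ (by
            rw [e]
            congr 1
            exact ((Fin.sum_univ_succAbove (w j.succ) (i t)).trans
              ((congrArg (· + _) (z j)).trans (zero_add _))).symm))
          (deh hD (k1 t).1 (k1 t).2.1 (k1 t).2.2 (hf 0) hb)
        exact ⟨Q, Polynomial.C (q t : ℂ) * P, h1, by
          rw [Polynomial.coe_mul, Polynomial.coe_C, ← h2, mul_left_comm]⟩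
    have h3 := congrArg (PowerSeries.map (algebraMap ℚ ℂ)) h
    simp only [map_mul, map_sub, map_add, map_one, PowerSeries.map_C, PowerSeries.map_X, map_inv₀,
      map_natCast (algebraMap ℚ ℂ), map_pow, map_sum, ← Polynomial.polynomial_map_coe,
      eq_ratCast (algebraMap ℚ ℂ) (q _)] at h3
    refine ⟨Q * (1 - Polynomial.C ((p : ℂ) ^ ∑ l, w 0 l)⁻¹ * Polynomial.X ^ d 0),
      P + Q * R.map (algebraMap ℚ ℂ), ?_, ?_⟩
    · simp only [Polynomial.eval_mul, Polynomial.eval_sub, Polynomial.eval_one, Polynomial.eval_C,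
        Polynomial.eval_pow, Polynomial.eval_X]
      exact mul_ne_zero h1 fun e => hT 0 ((inv_mul_eq_one₀ (pow_ne_zero _
        (Nat.cast_ne_zero.2 hp.ne_zero))).1 (sub_eq_zero.1 e).symm).symm
    · simp only [Polynomial.coe_sub, Polynomial.coe_mul, Polynomial.coe_X, Polynomial.coe_C,
        Polynomial.coe_one, Polynomial.coe_add, Polynomial.coe_pow, ← h2]
      rw [mul_assoc]
      erw [h3]
      rw [mul_add]

omit [Fact p.Prime] in
theorem main3 {k : ℕ} {w : Fin k → Fin (3 + k) → ℕ} {d : Fin k → ℕ}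
    {f : Fin r → MvPolynomial (Fin (3 + k)) ℤ} (hf : ∃ i, f i ≠ 0) (hd : ∀ j, 0 < d j)
    (hs : ∀ j j', j ≠ j' → ∀ l, w j l = 0 ∨ w j' l = 0)
    (hw : ∀ j i, (f i).IsWeightedHomogeneous (w j) (d j))
    {F : MvPolynomial (Fin r ⊕ Fin (3 + k)) ℤ}
    (hF : F = ∑ i, X (Sum.inl i) * rename Sum.inr (f i))
    (hp : p.Prime) {A B : Polynomial ℚ} (hAB : IsCoprime A B)
    (hP : (B : PowerSeries ℚ) * poincare F p = A) (hT : Polynomial.aeval T B = 0)
    (hL : ∀ j, T ^ d j = (p : ℂ) ^ ∑ l, w j l → ∑ l, w j l ≠ d j →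
      LogGeneral (w j) (Ideal.span (Set.range fun i => map (Int.castRingHom ℂ) (f i))) (d j))
    (hb : IsBFunction (map (Int.castRingHom ℂ) F) b) :
    b.eval ((-(Real.log ‖T‖ / Real.log p) : ℝ) : ℂ) = 0 := by
  subst hF
  have h0 : f ≠ 0 := Function.ne_iff.2 hf
  change (B : PowerSeries ℚ) * poincare (H10.lin f) p = A at hP
  change IsBFunction (map (Int.castRingHom ℂ) (H10.lin f)) b at hb
  have := Fact.mk hp
  by_contra hne
  have h1 : b.eval (-1) = 0 := by
    obtain ⟨d, P, h7, h8⟩ := hb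
    refine H22.root_neg_one (fun h9 => deg_lin h0 ?_) h7 h8
    rwa [totalDegree, support_map_of_injective _ Int.cast_injective] at h9
  have e : ∀ j, T ^ d j ≠ (p : ℂ) ^ ∑ l, w j l := fun j e => by
    refine vert (hd j) hne ?_ e
    by_cases e2 : ∑ l, w j l = d j
    · rw [e2, div_self (Nat.cast_ne_zero.2 (hd j).ne')]
      exact h1
    · cases k with
      | zero => exact j.elim0
      | succ k =>
        exact MP_ee8c61_ag.N3.O5.rRoot (3 + k) r (d j) (w j) _ b (hd j)
          (fun i => wh_map (hw j i)) (fun e => h0 (_root_.funext fun j =>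
            map_injective (Int.castRingHom ℂ) Int.cast_injective
              ((congrFun e j).trans (map_zero _).symm))) (hL j e e2) (bs_lin hb)
  obtain ⟨D, P, h2, h3⟩ := nopk (p := p) MP_ee8c61_ag.N3.core rCount rDeh
    (P3.root_ne hAB hP hT) hne k w d f h0 hd hs hw e hb
  have h4 := congrArg (PowerSeries.map (algebraMap ℚ ℂ)) (countN hp f)
  have h5 := H48G.no_pole hAB hP hT (Q := D * (1 - Polynomial.C (p : ℂ)⁻¹ * Polynomial.X))
    (P := Polynomial.C (p : ℂ)⁻¹ * D + Polynomial.C (1 - (p : ℂ)⁻¹) * P) (by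
      simp only [map_mul, map_sub, map_add, map_one, PowerSeries.map_C, PowerSeries.map_X,
        map_inv₀, map_natCast] at h4
      simp only [Polynomial.coe_sub, Polynomial.coe_mul, Polynomial.coe_X, Polynomial.coe_C,
        Polynomial.coe_one, Polynomial.coe_add, mul_assoc, h4, ← h3, map_sub, map_one]
      ring)
  have hp0 : (p : ℂ) ≠ 0 := Nat.cast_ne_zero.2 hp.ne_zero
  have h6 : T = p := by
    simp only [Polynomial.eval_mul, h2, Polynomial.eval_sub, Polynomial.eval_one, mul_eq_zero,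
      Polynomial.eval_C, Polynomial.eval_X, false_or] at h5
    exact ((inv_mul_eq_one₀ hp0).1 (sub_eq_zero.1 h5).symm).symm
  rw [h6, Complex.norm_natCast, div_self (Real.log_pos (Nat.one_lt_cast.2 hp.one_lt)).ne'] at hne
  exact hne (by simpa using h1)

end Pool.Agent.MP_5d9b3c_ag.O5
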