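import Pool.Agent.MP_5d9b3c_ag.O5.Spec
import Pool.Agent.MP_5d9b3c_ag.O3I.Main

/-! Weighted homogeneous polynomials of one degree in four variables: the assembly. -/

namespace Pool.Agent.MP_5d9b3c_ag.O5

open MvPolynomial H48G H72 H10 O3I

variable {p n r d : ℕ} {w : Fin (n + 1) → ℕ} {i : Fin (n + 1)} {a : ℤ} {c : Fin n → ℤ}

theorem map_sb (g : MvPolynomial (Fin (n + 1)) ℤ) :
    map (Int.castRingHom ℂ) (aeval (sb i a c) g) =
      aeval (fun l => map (Int.castRingHom ℂ) (sb i a c l)) (map (Int.castRingHom ℂ) g) := by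
  induction g using MvPolynomial.induction_on with
  | C a => simp
  | add f g h1 h2 => simp only [map_add, h1, h2]
  | mul_X f l h => simp only [map_mul, h, aeval_X, map_X]

theorem sb_self : map (Int.castRingHom ℂ) (sb i a c i) = C (a : ℂ) := by
  rw [sb, Fin.insertNth_apply_same, map_C, eq_intCast]

theorem sb_succ (l : Fin n) :
    map (Int.castRingHom ℂ) (sb i a c (i.succAbove l)) = C (c l : ℂ) * X l := by
  rw [sb, Fin.insertNth_apply_succAbove, map_mul, map_C, map_X, eq_intCast]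

theorem wh_map {σ : Type} {w : σ → ℕ} {g : MvPolynomial σ ℤ} (hg : g.IsWeightedHomogeneous w d) :
    (map (Int.castRingHom ℂ) g).IsWeightedHomogeneous w d := fun s hs =>
  hg fun e => hs (by rw [coeff_map, e, map_zero])

theorem scale {g : MvPolynomial (Fin (n + 1)) ℂ} (hg : g.IsWeightedHomogeneous w d) (t : ℂ)
    (x : Fin (n + 1) → ℂ) : aeval (fun l => t ^ w l * x l) g = t ^ d * aeval x g := by
  rw [aeval_def, aeval_def, eval₂_eq', eval₂_eq', Finset.mul_sum]
  refine Finset.sum_congr rfl fun s hs => ?_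
  rw [← hg (mem_support_iff.1 hs), Finsupp.weight_apply, Finsupp.sum_fintype _ _ (by simp)]
  simp only [mul_pow, Finset.prod_mul_distrib, ← pow_mul, Finset.prod_pow_eq_pow_sum, smul_eq_mul,
    mul_comm (w _)]
  ring

theorem sb_ne (hw : w i ≠ 0) (ha : a ≠ 0) (hc : ∀ l, c l ≠ 0) {g : MvPolynomial (Fin (n + 1)) ℤ}
    (hg : g.IsWeightedHomogeneous w d) (h0 : g ≠ 0) : aeval (sb i a c) g ≠ 0 := fun h => by
  have h1 := map_sb (i := i) (a := a) (c := c) g
  rw [h, map_zero] at h1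
  refine mul_ne_zero (X_ne_zero (R := ℂ) i) (fun e => h0 (map_injective (Int.castRingHom ℂ)
    Int.cast_injective (e.trans (map_zero _).symm))) (MvPolynomial.funext fun x => ?_)
  rw [map_mul, eval_X, map_zero]
  refine mul_eq_zero.2 (or_iff_not_imp_left.2 fun k => ?_)
  have a0 : (a : ℂ) ≠ 0 := Int.cast_ne_zero.2 ha
  obtain ⟨t, ht⟩ := IsAlgClosed.exists_pow_nat_eq (x i / a) (Nat.pos_of_ne_zero hw)
  have t0 : t ≠ 0 := fun e => div_ne_zero k a0 (by rw [← ht, e, zero_pow hw])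
  have h2 := congrArg (aeval fun l => x (i.succAbove l) / t ^ w (i.succAbove l) / c l) h1
  rw [map_zero, ← AlgHom.comp_apply, comp_aeval] at h2
  have h3 := scale (wh_map hg) t fun l => aeval (fun l => x (i.succAbove l) /
    t ^ w (i.succAbove l) / c l) (map (Int.castRingHom ℂ) (sb i a c l))
  rw [← h2, mul_zero] at h3
  refine Eq.trans (congrArg (aeval · _) (funext fun l => ?_)) h3
  refine i.succAboveCases ?_ (fun l => ?_) l
  · rw [sb_self, aeval_C, Algebra.algebraMap_self_apply, ht, div_mul_cancel₀ _ a0]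
  · rw [sb_succ, map_mul, aeval_X, aeval_C, Algebra.algebraMap_self_apply,
      mul_div_cancel₀ _ (Int.cast_ne_zero.2 (hc l)), mul_div_cancel₀ _ (pow_ne_zero _ t0)]

theorem wh_ren {σ τ : Type} {w : τ → ℕ} {g : MvPolynomial τ ℂ} (hg : g.IsWeightedHomogeneous w d) :
    (rename (Sum.inr : τ → σ ⊕ τ) g).IsWeightedHomogeneous (Sum.elim 0 w) d := by
  rw [g.as_sum, map_sum]
  refine IsWeightedHomogeneous.sum _ _ _ fun s hs => ?_
  rw [rename_monomial]
  refine isWeightedHomogeneous_monomial _ _ _ ?_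
  rw [← hg (mem_support_iff.1 hs), Finsupp.weight_apply, Finsupp.weight_apply,
    Finsupp.sum_mapDomain_index_inj Sum.inr_injective]
  rfl

/-- The functional equation of a slice. -/
theorem deh (hD : SDeh) (hw : w i ≠ 0) (ha : a ≠ 0) (hc : ∀ l, c l ≠ 0)
    {f : Fin r → MvPolynomial (Fin (n + 1)) ℤ} (hf : ∀ j, (f j).IsWeightedHomogeneous w d)
    {b : Polynomial ℂ} (hb : IsBFunction (map (Int.castRingHom ℂ) (H10.lin f)) b) :
    IsBFunction (map (Int.castRingHom ℂ) (H10.lin fun j => aeval (sb i a c) (f j))) b := by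
  let ε : Option (Fin r ⊕ Fin n) ≃ Fin r ⊕ Fin (n + 1) :=
    (Equiv.optionEquivSumPUnit.{0} _).trans ((Equiv.sumAssoc _ _ _).trans ((Equiv.refl _).sumCongr
      ((Equiv.optionEquivSumPUnit.{0} _).symm.trans (finSuccEquiv' i).symm)))
  have e0 : ε none = .inr i := by simp [ε]
  have := hD _ _ ε (Sum.elim 0 w) d _ b a (Sum.elim 1 fun l => c l)
    (Sum.elim (fun a => X (.inl a)) fun l => rename .inr (map (Int.castRingHom ℂ) (sb i a c l)))
    (by
      simp only [H10.lin, map_sum, map_mul, map_X, map_rename]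
      refine IsWeightedHomogeneous.sum _ _ _ fun a _ => ?_
      simpa using (isWeightedHomogeneous_X ℂ (Sum.elim 0 w) (Sum.inl a)).mul
        (wh_ren (wh_map (hf a))))
    (by rw [e0]; exact hw) (Int.cast_ne_zero.2 ha) (by
      rintro (a | l)
      exacts [one_ne_zero, Int.cast_ne_zero.2 (hc l)])
    (by rw [e0, Sum.elim_inr, sb_self, rename_C]) (by
      rintro (a | l)
      · simp [ε]
      · have : ε (some (.inr l)) = .inr (i.succAbove l) := by simp [ε]
        rw [this, Sum.elim_inr, sb_succ, map_mul, rename_C, rename_X]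
        rfl) hb
  refine Eq.subst (motive := (IsBFunction · b)) ?_ this
  have k : ∀ g : MvPolynomial (Fin (n + 1)) ℂ, aeval (fun l => rename (Sum.inr : _ → Fin r ⊕ _)
      (map (Int.castRingHom ℂ) (sb i a c l))) g =
      rename .inr (aeval (fun l => map (Int.castRingHom ℂ) (sb i a c l)) g) := fun g => by
    rw [← AlgHom.comp_apply, comp_aeval]
  simp only [H10.lin, map_sum, map_mul, map_X, map_rename, aeval_X, aeval_rename,
    Sum.elim_comp_inr, Sum.elim_inl, map_sb, k]

theorem bs_lin {f : Fin r → MvPolynomial (Fin n) ℤ} {b : Polynomial ℂ}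
    (hb : IsBFunction (map (Int.castRingHom ℂ) (H10.lin f)) b) :
    MP_ee8c61_ag.H10.IsBS (fun j => map (Int.castRingHom ℂ) (f j)) b := by
  simp only [H10.lin, map_sum, map_mul, map_X, map_rename] at hb
  exact isBS_of _ b hb

theorem deg_lin {f : Fin r → MvPolynomial (Fin n) ℤ} (hf : f ≠ 0) :
    (H10.lin f).totalDegree ≠ 0 := fun h => by
  obtain ⟨i, hi⟩ := Function.ne_iff.1 hf
  have h1 := congrArg (aeval (Sum.elim (fun j => if j = i then (Polynomial.X : Polynomial
    (MvPolynomial (Fin n) ℤ)) else 0) fun l => Polynomial.C (X l)))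
    (totalDegree_eq_zero_iff_eq_C.1 h)
  have h2 : ∀ g : MvPolynomial (Fin n) ℤ, aeval (fun l => (Polynomial.C (X l) :
      Polynomial (MvPolynomial (Fin n) ℤ))) g = Polynomial.C g := fun g => by
    induction g using MvPolynomial.induction_on <;> simp_all
  rw [aeval_C, H10.lin] at h1
  simp only [map_sum, map_mul, aeval_X, aeval_rename, Sum.elim_inl, Sum.elim_comp_inr, h2, ite_mul,
    zero_mul, Finset.sum_ite_eq', Finset.mem_univ, if_true] at h1
  rw [eq_intCast, ← Polynomial.C_eq_intCast, mul_comm] at h1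
  exact hi ((Polynomial.coeff_C_mul_X _ _).symm.trans ((congrArg (Polynomial.coeff · 1) h1).trans
    (Polynomial.coeff_C_succ (n := 0))))

variable [Fact p.Prime] {T : ℂ} {b : Polynomial ℂ}

theorem vert {k : ℕ} (hd : 0 < d) (hne : b.eval ((-(Real.log ‖T‖ / Real.log p) : ℝ) : ℂ) ≠ 0)
    (h : b.eval (-((k : ℂ) / d)) = 0) : T ^ d ≠ p ^ k := fun e => by
  have lp := (Real.log_pos (Nat.one_lt_cast.2 (Fact.out : p.Prime).one_lt : (1 : ℝ) < p)).ne'
  have h7 := congrArg (fun z : ℂ => Real.log ‖z‖) e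
  simp only [norm_pow, Complex.norm_natCast, Real.log_pow] at h7
  have h9 : (d : ℝ) ≠ 0 := Nat.cast_ne_zero.2 hd.ne'
  have h10 : Real.log ‖T‖ / Real.log p = k / d := by rw [div_eq_div_iff lp h9, mul_comm, h7]
  rw [h10] at hne
  refine hne (Eq.trans (congrArg b.eval ?_) h)
  push_cast
  rfl

theorem nop4 (hc : Core) (hC : SCount) (hD : SDeh) {w : Fin (3 + 1) → ℕ}
    {f : Fin r → MvPolynomial (Fin (3 + 1)) ℤ} (h0 : f ≠ 0) (hd : 0 < d)
    (hf : ∀ j, (f j).IsWeightedHomogeneous w d) (T0 : T ≠ 0) (hT : T ^ d ≠ p ^ ∑ l, w l)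
    (hb : IsBFunction (map (Int.castRingHom ℂ) (H10.lin f)) b)
    (hne : b.eval ((-(Real.log ‖T‖ / Real.log p) : ℝ) : ℂ) ≠ 0) :
    NoP T ((wser f p).map (algebraMap ℚ ℂ)) := by
  have hp : p.Prime := Fact.out
  obtain ⟨ι, _, i, a, c, q, R, k, h⟩ := hC 3 r d p w f hp hd hf
  obtain ⟨j, hj⟩ := Function.ne_iff.1 h0
  obtain ⟨Q, P, h1, h2⟩ := NoP.sum (T := T) (S := fun t : ι => PowerSeries.C (q t : ℂ) *
    (wser (fun j => aeval (sb (i t) (a t) (c t)) (f j)) p).map (algebraMap ℚ ℂ)) Finset.univ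
    fun t _ => by
      obtain ⟨Q, P, h1, h2⟩ := nop_w (p := p) (f := fun j => aeval (sb (i t) (a t) (c t)) (f j))
        (Function.ne_iff.2 ⟨j, sb_ne (k t).1 (k t).2.1 (k t).2.2 (hf j) hj⟩) fun j hj =>
          hc _ _ j p b T hj T0 (bs_lin (deh hD (k t).1 (k t).2.1 (k t).2.2 hf hb)) hne
      exact ⟨Q, Polynomial.C (q t : ℂ) * P, h1, by
        rw [Polynomial.coe_mul, Polynomial.coe_C, ← h2, mul_left_comm]⟩
  have h3 := congrArg (PowerSeries.map (algebraMap ℚ ℂ)) h
  simp only [map_mul, map_sub, map_add, map_one, PowerSeries.map_C, PowerSeries.map_X, map_inv₀,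
    map_natCast (algebraMap ℚ ℂ), map_pow, map_sum, ← Polynomial.polynomial_map_coe,
    eq_ratCast (algebraMap ℚ ℂ) (q _)] at h3
  refine ⟨Q * (1 - Polynomial.C ((p : ℂ) ^ ∑ l, w l)⁻¹ * Polynomial.X ^ d),
    P + Q * R.map (algebraMap ℚ ℂ), ?_, ?_⟩
  · simp only [Polynomial.eval_mul, Polynomial.eval_sub, Polynomial.eval_one, Polynomial.eval_C,
      Polynomial.eval_pow, Polynomial.eval_X]
    exact mul_ne_zero h1 fun e => hT ((inv_mul_eq_one₀ (pow_ne_zero _
      (Nat.cast_ne_zero.2 hp.ne_zero))).1 (sub_eq_zero.1 e).symm).symm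
  · simp only [Polynomial.coe_sub, Polynomial.coe_mul, Polynomial.coe_X, Polynomial.coe_C,
      Polynomial.coe_one, Polynomial.coe_add, Polynomial.coe_pow, ← h2]
    rw [mul_assoc, h3, mul_add]

omit [Fact p.Prime] in
theorem main_of (hc : Core) (hC : SCount) (hD : SDeh) (hR : SRoot) {w : Fin (3 + 1) → ℕ}
    {f : Fin r → MvPolynomial (Fin (3 + 1)) ℤ} (h0 : f ≠ 0) (hd : 0 < d)
    (hf : ∀ j, (f j).IsWeightedHomogeneous w d)
    (hL : LogGeneral w (Ideal.span (Set.range fun j => map (Int.castRingHom ℂ) (f j))) d)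
    (hp : p.Prime) {A B : Polynomial ℚ} (hAB : IsCoprime A B)
    (hP : (B : PowerSeries ℚ) * poincare (H10.lin f) p = A) (hT : Polynomial.aeval T B = 0)
    (hb : IsBFunction (map (Int.castRingHom ℂ) (H10.lin f)) b) :
    b.eval ((-(Real.log ‖T‖ / Real.log p) : ℝ) : ℂ) = 0 := by
  have := Fact.mk hp
  by_contra hne
  have h1 : b.eval (-1) = 0 := by
    obtain ⟨d, P, h7, h8⟩ := hb
    refine H22.root_neg_one (fun h9 => deg_lin h0 ?_) h7 h8
    rwa [totalDegree, support_map_of_injective _ Int.cast_injective] at h9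
  obtain ⟨D, P, h2, h3⟩ := nop4 (p := p) hc hC hD h0 hd hf (P3.root_ne hAB hP hT)
    (vert hd hne (hR 3 r d w _ b hd (fun j => wh_map (hf j)) (fun e => h0 (_root_.funext fun j =>
      map_injective (Int.castRingHom ℂ) Int.cast_injective
        ((congrFun e j).trans (map_zero _).symm))) hL (bs_lin hb))) hb hne
  have h4 := congrArg (PowerSeries.map (algebraMap ℚ ℂ)) (countN hp f)
  have h5 := H48G.no_pole hAB hP hT (Q := D * (1 - Polynomial.C (p : ℂ)⁻¹ * Polynomial.X))
    (P := Polynomial.C (p : ℂ)⁻¹ * D + Polynomial.C (1 - (p : ℂ)⁻¹) * P) (by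
      simp only [map_mul, map_sub, map_add, map_one, PowerSeries.map_C, PowerSeries.map_X,
        map_inv₀, map_natCast] at h4
      simp only [Polynomial.coe_sub, Polynomial.coe_mul, Polynomial.coe_X, Polynomial.coe_C,
        Polynomial.coe_one, Polynomial.coe_add, mul_assoc, h4, ← h3, map_sub, map_one]
      ring)
  have hp0 : (p : ℂ) ≠ 0 := Nat.cast_ne_zero.2 hp.ne_zero
  have h6 : T = p := by
    simp only [Polynomial.eval_mul, h2, Polynomial.eval_sub, Polynomial.eval_one, mul_eq_zero,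
      Polynomial.eval_C, Polynomial.eval_X, false_or] at h5
    exact ((inv_mul_eq_one₀ hp0).1 (sub_eq_zero.1 h5).symm).symm
  rw [h6, Complex.norm_natCast, div_self (Real.log_pos (Nat.one_lt_cast.2 hp.one_lt)).ne'] at hne
  exact hne (by simpa using h1)

end Pool.Agent.MP_5d9b3c_ag.O5
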