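import Pool.Agent.MP_ee8c61_ag.TC.ROrd
import Pool.Agent.MP_ee8c61_ag.TC.RKle

/-! The monomial valuation of a weight. -/

namespace Pool.Agent.MP_5d9b3c_ag.O5

open MvPolynomial MP_ee8c61_ag MP_ee8c61_ag.M3
open MP_ee8c61_ag.TC.ROrd (num_ne)

noncomputable section

variable {N : ℕ} (w : Fin N → ℕ)

/-- Scale all variables by powers of a new one. -/
def phi : Po N →ₐ[ℂ] Polynomial (Po N) := aeval fun i => Polynomial.X ^ w i * Polynomial.C (X i)

theorem phi_mono (s : Fin N →₀ ℕ) (c : ℂ) :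
    phi w (monomial s c) = Polynomial.monomial (Finsupp.weight w s) (monomial s c) := by
  rw [← Polynomial.C_mul_X_pow_eq_monomial, mul_comm, phi, aeval_monomial, monomial_eq,
    Finsupp.weight_apply, Finsupp.prod, Finsupp.prod, Finsupp.sum, map_mul, map_prod,
    ← Finset.prod_pow_eq_pow_sum, mul_left_comm, ← Finset.prod_mul_distrib]
  congr 1
  exact Finset.prod_congr rfl fun i _ => by rw [mul_pow, map_pow, ← pow_mul, smul_eq_mul, mul_comm (s i)]

theorem phi_coeff (p : Po N) (s : Fin N →₀ ℕ) (k : ℕ) :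
    coeff s ((phi w p).coeff k) = if Finsupp.weight w s = k then coeff s p else 0 := by
  classical
  induction p using MvPolynomial.induction_on' with
  | monomial u a =>
    rw [phi_mono, Polynomial.coeff_monomial, apply_ite (coeff s), coeff_monomial, coeff_zero]
    by_cases h : u = s
    · rw [h]
    · simp [h]
  | add p q h1 h2 =>
    rw [map_add, Polynomial.coeff_add, coeff_add, h1, h2, coeff_add]
    split_ifs <;> simp

variable {w}

theorem phi_ne' {p : Po N} {s : Fin N →₀ ℕ} (h : s ∈ p.support) :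
    (phi w p).coeff (Finsupp.weight w s) ≠ 0 := fun e => mem_support_iff.1 h (by
  simpa [e] using (phi_coeff w p s (Finsupp.weight w s)).symm)

theorem phi_ne {p : Po N} (h : p ≠ 0) : phi w p ≠ 0 := fun e => by
  obtain ⟨s, hs⟩ := support_nonempty.2 h
  exact phi_ne' (w := w) hs (by rw [e, Polynomial.coeff_zero])

variable (w) in
/-- The order of a polynomial. -/
def v0 (p : Po N) : ℤ := (phi w p).natTrailingDegree

theorem v0_mul {p q : Po N} (hp : p ≠ 0) (hq : q ≠ 0) : v0 w (p * q) = v0 w p + v0 w q := by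
  rw [v0, v0, v0, map_mul, Polynomial.natTrailingDegree_mul (phi_ne hp) (phi_ne hq)]
  push_cast
  rfl

theorem v0_add {p q : Po N} (h : p + q ≠ 0) : min (v0 w p) (v0 w q) ≤ v0 w (p + q) := by
  have h1 : min (phi w p).natTrailingDegree (phi w q).natTrailingDegree ≤
      (phi w (p + q)).natTrailingDegree := by
    refine Polynomial.le_natTrailingDegree (phi_ne h) fun m hm => ?_
    rw [lt_min_iff] at hm
    rw [map_add, Polynomial.coeff_add, Polynomial.coeff_eq_zero_of_lt_natTrailingDegree hm.1,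
      Polynomial.coeff_eq_zero_of_lt_natTrailingDegree hm.2, add_zero]
  rw [v0, v0, v0]
  exact_mod_cast h1

theorem v0_le {p : Po N} {s : Fin N →₀ ℕ} (h : s ∈ p.support) :
    v0 w p ≤ (Finsupp.weight w s : ℕ) :=
  Int.ofNat_le.2 (Polynomial.natTrailingDegree_le_of_ne_zero (phi_ne' h))

theorem le_v0 {p : Po N} (h0 : p ≠ 0) {e : ℤ}
    (h : ∀ s ∈ p.support, e ≤ (Finsupp.weight w s : ℕ)) : e ≤ v0 w p := by
  obtain ⟨s, hs⟩ := support_nonempty.2
    (Polynomial.trailingCoeff_nonzero_iff_nonzero.2 (phi_ne (w := w) h0))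
  have h1 := mem_support_iff.1 hs
  rw [Polynomial.trailingCoeff, phi_coeff] at h1
  obtain ⟨h2, h3⟩ := ite_ne_right_iff.1 h1
  rw [v0, ← h2]
  exact h s (mem_support_iff.2 h3)

theorem v0_hom {p : Po N} {e : ℕ} (h0 : p ≠ 0) (h : p.IsWeightedHomogeneous w e) : v0 w p = e := by
  obtain ⟨s, hs⟩ := support_nonempty.2 h0
  exact le_antisymm (h (mem_support_iff.1 hs) ▸ v0_le hs)
    (le_v0 h0 fun s hs => (h (mem_support_iff.1 hs)).symm ▸ le_rfl)

variable (w) in
open Classical in
/-- The order of a rational function. -/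
def vv (x : KK N) : ℤ :=
  if x = 0 then 0 else v0 w (M3B1.frac x).choose - v0 w (M3B1.frac x).choose_spec.choose

theorem vv_eq {x : KK N} {p q : Po N} (hx : x ≠ 0) (hq : q ≠ 0) (e : ip N q * x = ip N p) :
    vv w x = v0 w p - v0 w q := by
  obtain ⟨hq', e'⟩ := (M3B1.frac x).choose_spec.choose_spec
  rw [vv, if_neg hx]
  generalize (M3B1.frac x).choose_spec.choose = q' at hq' e'
  generalize (M3B1.frac x).choose = p' at e'
  have h : p' * q = p * q' := M3B1.ip_inj (by rw [map_mul, map_mul, ← e, ← e']; ring)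
  have h1 := v0_mul (w := w) (num_ne hx hq' e') hq
  rw [h, v0_mul (num_ne hx hq e) hq'] at h1
  omega

variable (w) in
/-- The valuation. -/
def dv : DV (KK N) where
  v := vv w
  zero := if_pos rfl
  mul g h hg hh := by
    obtain ⟨p, q, hq, e⟩ := M3B1.frac g
    obtain ⟨p', q', hq', e'⟩ := M3B1.frac h
    have e2 : ip N (q * q') * (g * h) = ip N (p * p') := by
      rw [map_mul, map_mul, ← e, ← e']; ring
    rw [vv_eq (mul_ne_zero hg hh) (mul_ne_zero hq hq') e2, vv_eq hg hq e, vv_eq hh hq' e',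
      v0_mul (num_ne hg hq e) (num_ne hh hq' e'), v0_mul hq hq']
    ring
  add g h hg hh hs := by
    obtain ⟨p, q, hq, e⟩ := M3B1.frac g
    obtain ⟨p', q', hq', e'⟩ := M3B1.frac h
    have e2 : ip N (q * q') * (g + h) = ip N (p * q' + p' * q) := by
      rw [map_mul, map_add, map_mul, map_mul, ← e, ← e']; ring
    have h1 := v0_add (w := w) (num_ne hs (mul_ne_zero hq hq') e2)
    rw [v0_mul (num_ne hg hq e) hq', v0_mul (num_ne hh hq' e') hq] at h1
    rw [vv_eq hs (mul_ne_zero hq hq') e2, vv_eq hg hq e, vv_eq hh hq' e', v0_mul hq hq']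
    omega

theorem dv_ip {p : Po N} (hp : p ≠ 0) : (dv w).v (ip N p) = v0 w p := by
  have e1 : ip N 1 * ip N p = ip N p := by rw [map_one, one_mul]
  change vv w _ = _
  rw [vv_eq (M3B1.ip_ne hp) one_ne_zero e1, v0_hom one_ne_zero (isWeightedHomogeneous_one ℂ w)]
  simp

theorem dv_hom {p : Po N} {e : ℕ} (h0 : p ≠ 0) (h : p.IsWeightedHomogeneous w e) :
    (dv w).v (ip N p) = e := (dv_ip h0).trans (v0_hom h0 h)

theorem dv_pol (p : Po N) : ip N p ∈ (dv w).O := by
  by_cases h : p = 0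
  · rw [h, map_zero]
    exact zero_mem _
  · exact Or.inr (dv_ip (w := w) h ▸ Int.natCast_nonneg _)

theorem dpoly (l : Fin N) (p : Po N) : M3B1.pd N l (ip N p) ∈ (dv w).F (v0 w p - w l) := by
  rw [M3B1.pd_ip]
  by_cases h : pderiv l p = 0
  · rw [h, map_zero]
    exact zero_mem _
  refine Or.inr (dv_ip (w := w) h ▸ le_v0 h fun s hs => ?_)
  have h1 := mem_support_iff.1 hs
  rw [coeff_pderiv] at h1
  have := v0_le (w := w) (mem_support_iff.2 (left_ne_zero_of_mul h1))
  rw [map_add, Finsupp.weight_single, one_smul] at this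
  omega

theorem der (l : Fin N) (m : ℤ) (g : KK N) (hg : g ∈ (dv w).F m) :
    M3B1.pd N l g ∈ (dv w).F (m - w l) := by
  by_cases g0 : g = 0
  · exact Or.inl (by rw [g0, map_zero])
  obtain ⟨p, q, hq, h⟩ := M3B1.frac g
  have q0 := M3B1.ip_ne hq
  have hp := num_ne g0 hq h
  have e1 := (dv w).mul _ _ q0 g0
  rw [h, dv_ip hp, dv_ip hq] at e1
  have e2 := hg.resolve_left g0
  have e3 : M3B1.pd N l g = (ip N q)⁻¹ * (M3B1.pd N l (ip N p) - g * M3B1.pd N l (ip N q)) := by
    rw [← h, Derivation.leibniz, smul_eq_mul, smul_eq_mul, add_sub_cancel_right,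
      inv_mul_cancel_left₀ q0]
  have e4 : M3B1.pd N l (ip N p) - g * M3B1.pd N l (ip N q) ∈ (dv w).F (m + (v0 w q - w l)) :=
    sub_mem ((dv w).F_anti (by omega) (dpoly l p)) ((dv w).F_mul hg (dpoly l q))
  have e5 := (dv w).F_mul ((dv w).mem_F_self (ip N q)⁻¹) e4
  rw [DV.inv, dv_ip hq] at e5
  rw [e3]
  exact (dv w).F_anti (by omega) e5

theorem dvr {K : Type} [Field K] (d : DV K) {g : K} (g0 : g ≠ 0) (hg : 0 < d.v g) :
    IsDiscreteValuationRing d.O := by
  have nn : ∀ x : d.O, x ≠ 0 → 0 ≤ d.v x := fun x hx =>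
    Or.resolve_left x.2 fun h => hx (Subtype.ext h)
  have pir : IsPrincipalIdealRing d.O := by
    refine ⟨fun I => ?_⟩
    by_cases hI : I = ⊥
    · rw [hI]
      exact bot_isPrincipal
    obtain ⟨z, hz, z0⟩ := Submodule.exists_mem_ne_zero_of_ne_bot hI
    obtain ⟨x, ⟨hx, x0⟩, hmin⟩ := WellFounded.has_min
      (InvImage.wf (fun x : d.O => (d.v x).toNat) wellFounded_lt) {x | x ∈ I ∧ x ≠ 0} ⟨z, hz, z0⟩
    refine ⟨x, le_antisymm (fun y hy => ?_) ((Submodule.span_singleton_le_iff_mem _ _).2 hx)⟩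
    by_cases y0 : y = 0
    · rw [y0]
      exact Submodule.zero_mem _
    have h : (d.v x).toNat ≤ (d.v y).toNat := not_lt.1 (hmin y ⟨hy, y0⟩)
    have x1 : (x : K) ≠ 0 := fun h => x0 (Subtype.ext h)
    have h1 := nn y y0
    refine Ideal.mem_span_singleton.2 ⟨⟨y / x, Or.inr ?_⟩, Subtype.ext (mul_div_cancel₀ _ x1).symm⟩
    rw [d.div (fun h => y0 (Subtype.ext h)) x1]
    omega
  refine { not_a_field' := fun h => ?_ }
  have hu : IsUnit (⟨g, Or.inr hg.le⟩ : d.O) := by
    by_contra hn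
    have : (⟨g, Or.inr hg.le⟩ : d.O) ∈ IsLocalRing.maximalIdeal d.O := hn
    rw [h] at this
    exact g0 (congrArg Subtype.val ((Submodule.mem_bot _).1 this))
  obtain ⟨c, hc⟩ := hu.exists_right_inv
  have h1 : g * c.1 = 1 := congrArg Subtype.val hc
  have c0 : c.1 ≠ 0 := right_ne_zero_of_mul_eq_one h1
  have h2 := d.mul _ _ g0 c0
  have h3 := nn c fun e => c0 (congrArg Subtype.val e)
  rw [h1, d.one] at h2
  omega

theorem det_mem {K : Type} [Field K] (d : DV K) (A : Matrix (Fin N) (Fin N) K) (a b : Fin N → ℤ)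
    (h : ∀ i j, A i j ∈ d.F (a i - b j)) : A.det ∈ d.F (∑ i, a i - ∑ j, b j) := by
  rw [Matrix.det_apply]
  refine sum_mem fun σ _ => ?_
  have := TC.RKle.prod_mem d Finset.univ (fun l => A (σ l) l) (fun l => a (σ l) - b l)
    fun l => h _ _
  rw [Finset.sum_sub_distrib, Equiv.sum_comp σ a] at this
  rw [Units.smul_def]
  exact zsmul_mem this _

end

end Pool.Agent.MP_5d9b3c_ag.O5
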